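import Pool.Agent.MSL.Final

/-!
Problem MP_e4ce4d_pr: for every atomless law of the weights, the minimum spanning arborescence of
the complete digraph converges locally to the critical Poisson(1) Galton-Watson tree conditioned
to survive, with all edges oriented towards the root of the spine at infinity.
-/

set_option autoImplicit false

open scoped Topology ENNReal
open Finset MeasureTheory Filter

namespace Pool.Agent.Results.MP_e4ce4d_pr.LocalLimit

open Pool.Agent.MSL

theorem result (μ : Measure ℝ) [IsProbabilityMeasure μ] (hμ : ∀ x, μ {x} = 0)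
    (bd : ∀ n : ℕ, Fin (n + 2)) (hbd : ∀ n, bd n ≠ 0) :
    (∀ n, ∀ᵐ W ∂(wM μ (n + 2)), ∃! M, IsMinArb W (bd n) M) ∧
    ∀ (R k : ℕ) (H : Fin k → Fin k → Prop) (h : Fin k),
      (∀ n, MeasurableSet {W : Fin (n + 2) → Fin (n + 2) → ℝ |
        ∃ M, IsMinArb W (bd n) M ∧ BallIso (arbE (bd n) M) 0 R H h}) ∧
      MeasurableSet {ξ : Node → ℕ | BallIso (TE ξ) (0, []) R H h} ∧
      Tendsto (fun n : ℕ => wM μ (n + 2) {W | ∃ M, IsMinArb W (bd n) M ∧
        BallIso (arbE (bd n) M) 0 R H h}) atTop
        (𝓝 (treeM {ξ | BallIso (TE ξ) (0, []) R H h})) := by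
  have hT : IsProbabilityMeasure treeM := by unfold treeM; infer_instance
  refine ⟨fun n => ae_unique μ hμ (n + 2) (bd n), fun R k H h => ⟨fun n => ?_,
    measurableSet_limit R H h, ?_⟩⟩
  · refine measurableSet_setOfPred.mpr (Measurable.exists fun M => ?_)
    exact (Exch.measurable_isMinArb (bd n) M).and measurable_const
  · have h1 := Final.limit μ hμ bd hbd R H h
    have h2 := (ENNReal.tendsto_toReal_iff (fun n => measure_ne_top (wM μ (n + 2)) _)
      (measure_ne_top treeM _)).mp h1
    exact h2

end Pool.Agent.Results.MP_e4ce4d_pr.LocalLimit
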